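import Pool.Agent.Helper71.PY.Goals

/-! Packet PY-FL: the cokernel of `N → P^*` has finite length. -/

set_option autoImplicit false

open Pool.Agent.Helper71.PY

namespace Pool.Agent.Helper77.PY

theorem finLen (R : Type) [CommRing R] [IsNoetherianRing R] (C : Type) [AddCommGroup C]
    [Module R C] [Module.Finite R C] (I : Ideal R)
    (hI : ∀ p : Ideal R, p.IsPrime → I ≤ p → p.IsMaximal)
    (hC : ∀ r ∈ I, ∀ c : C, r • c = 0) : Module.length R C ≠ ⊤ := by
  have hnoe : IsNoetherian R C := isNoetherian_of_isNoetherianRing_of_finite R C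
  have hart : IsArtinianRing (R ⧸ I) := by
    rw [isArtinianRing_iff_krullDimLE_zero]
    refine Ring.KrullDimLE.mk₀ (fun p hp => ?_)
    have hpc : (p.comap (Ideal.Quotient.mk I)).IsPrime := Ideal.comap_isPrime _ p
    have hle : I ≤ p.comap (Ideal.Quotient.mk I) := by
      intro r hr
      rw [Ideal.mem_comap, Ideal.Quotient.eq_zero_iff_mem.2 hr]
      exact p.zero_mem
    have hmax := hI _ hpc hle
    have hsurj : Function.Surjective (Ideal.Quotient.mk I) := Ideal.Quotient.mk_surjective
    have heq : (p.comap (Ideal.Quotient.mk I)).map (Ideal.Quotient.mk I) = p :=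
      Ideal.map_comap_of_surjective _ hsurj p
    rcases Ideal.map_eq_top_or_isMaximal_of_surjective _ hsurj hmax with h | h
    · exact absurd (heq.symm.trans h) hp.ne_top
    · rwa [heq] at h
  have htor : Module.IsTorsionBySet R C (I : Set R) := by
    intro c r
    exact hC r.1 r.2 c
  let _ : Module (R ⧸ I) C := htor.module
  have _ : IsScalarTower R (R ⧸ I) C := htor.isScalarTower
  have _ : Module.Finite (R ⧸ I) C := Module.Finite.of_restrictScalars_finite R (R ⧸ I) C
  have hA : IsArtinian (R ⧸ I) C := isArtinian_of_fg_of_artinian'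
  have hA2 : IsArtinian R C :=
    isArtinian_of_surjective_algebraMap (R := R ⧸ I) (S := R) (M := C)
      Ideal.Quotient.mk_surjective
  exact Module.length_ne_top

theorem fl (h1 : G_PFREE) (h2 : G_EXT) (h3 : G_UFD) : G_FL := by
  intro R _ _ _ _ x y hR N _ _ _ _ B hB P hL
  have hfree : Module.Free R P := h1 R x y hR N B P hL
  have hNn : IsNoetherian R N := isNoetherian_of_isNoetherianRing_of_finite R N
  have hfinP : Module.Finite R P := inferInstance
  have hfinD : Module.Finite R (P →ₗ[R] R) := inferInstance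
  have hfinC : Module.Finite R (Cok B P) := inferInstance
  have hpure : ∀ (r : R) (n : N), r ≠ 0 → r • n ∈ P → n ∈ P := by
    intro r n hr hn
    rw [hL n]
    intro w hw
    have h0 := (hL (r • n)).1 hn w hw
    rw [map_smul, LinearMap.smul_apply, smul_eq_mul] at h0
    exact (mul_eq_zero.1 h0).resolve_left hr
  -- for every class and every prime there is an annihilating element outside the prime
  have hkey : ∀ (c : Cok B P) (π : R), Prime π → ∃ s : R, ¬ π ∣ s ∧ s • c = 0 := by
    intro c π hπ
    obtain ⟨φ, rfl⟩ := Submodule.Quotient.mk_surjective _ c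
    obtain ⟨s, hs, Φ, hΦ⟩ := h2 R π hπ N P hpure φ
    obtain ⟨n, hn⟩ := hB.perf.2 Φ
    refine ⟨s, hs, ?_⟩
    rw [← Submodule.Quotient.mk_smul, Submodule.Quotient.mk_eq_zero]
    refine ⟨n, ?_⟩
    ext p
    rw [nu_apply]
    have : B n = Φ := hn
    rw [this, hΦ p]
    simp
  have hprime : ∀ (c : Cok B P) (p : Ideal R), p.IsPrime → Ideal.torsionOf R (Cok B P) c ≤ p →
      p = IsLocalRing.maximalIdeal R := by
    intro c p hp hle
    by_contra hne
    have hbot : p ≠ ⊥ := by
      intro hb
      obtain ⟨s, hs, hsc⟩ := hkey c x hR.prx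
      have hmem : s ∈ p := hle ((Ideal.mem_torsionOf_iff c s).2 hsc)
      rw [hb, Ideal.mem_bot] at hmem
      exact hs (hmem ▸ dvd_zero x)
    obtain ⟨π, hπ, hpπ⟩ := (h3 R x y hR).2 p hp hbot hne
    obtain ⟨s, hs, hsc⟩ := hkey c π hπ
    have hmem : s ∈ p := hle ((Ideal.mem_torsionOf_iff c s).2 hsc)
    rw [hpπ, Ideal.mem_span_singleton] at hmem
    exact hs hmem
  obtain ⟨S, hS⟩ := hfinC.fg_top
  refine finLen R (Cok B P) (S.inf (fun c => Ideal.torsionOf R (Cok B P) c)) ?_ ?_
  · intro p hp hle
    obtain ⟨c, _, hc⟩ := (hp.inf_le').1 hle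
    rw [hprime c p hp hc]
    exact IsLocalRing.maximalIdeal.isMaximal R
  · intro r hr c
    have hc : c ∈ Submodule.span R (S : Set (Cok B P)) := by rw [hS]; trivial
    induction hc using Submodule.span_induction with
    | mem c hcS =>
      have : r ∈ Ideal.torsionOf R (Cok B P) c :=
        (Finset.inf_le (f := fun c => Ideal.torsionOf R (Cok B P) c) hcS) hr
      exact (Ideal.mem_torsionOf_iff c r).1 this
    | zero => exact smul_zero r
    | add a b _ _ ha hb => rw [smul_add, ha, hb, add_zero]
    | smul a b _ hb => rw [smul_comm, hb, smul_zero]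

end Pool.Agent.Helper77.PY
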